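import Pool.Agent.Helper70.OB.GoalsE

open MeasureTheory Set Metric Filter
open scoped ENNReal Topology
open Pool.Agent.Results.MP_91ee6f_gt
open Pool.Agent.Helper70.MM (om om_zero om_one om_rel om_pos om_hasDerivAt om_le om_measurable)

namespace Pool.Agent.Helper90.OB

open Pool.Agent.Helper70.OB

/-- bound of the potentials far away -/
theorem gj_far {n : ℕ} (τ : Measure (En n)) [IsFiniteMeasure τ] {R : ℝ}
    (hR : τ (closedBall 0 R)ᶜ = 0) {e : En n} (he : ‖e‖ = 1) (j : ℕ) {r : ℝ} (h0 : 0 ≤ r)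
    (hr : R + 1 ≤ r) : |gj τ e j r| ≤ om j 1 * τ.real univ := by
  unfold gj
  rw [← Real.norm_eq_abs]
  refine norm_integral_le_of_norm_le_const (μ := τ) (C := om j 1) ?_
  have hae : ∀ᵐ y ∂τ, y ∈ closedBall (0 : En n) R := by
    rw [ae_iff]
    exact hR
  filter_upwards [hae] with y hy
  have hy' : ‖y‖ ≤ R := by
    rw [mem_closedBall, dist_zero_right] at hy
    exact hy
  have h1 : 1 ≤ dist (r • e) y := by
    rw [dist_eq_norm]
    have h2 : ‖r • e‖ = r := by
      rw [norm_smul, he, mul_one, Real.norm_eq_abs, abs_of_nonneg h0]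
    have h3 := norm_sub_norm_le (r • e) y
    rw [h2] at h3
    linarith
  have h4 : 0 < om j (dist (r • e) y) := om_pos j (by linarith)
  rw [Real.norm_eq_abs, abs_of_pos h4]
  exact om_le j one_pos h1

theorem decay (n : ℕ) (C A B : ℝ) :
    Tendsto (fun r : ℝ => C * Real.exp (-(r / 2)) * (A + B * r ^ n)) atTop (𝓝 0) := by
  have h1 : Tendsto (fun x : ℝ => x ^ n * Real.exp (-x)) atTop (𝓝 0) :=
    Real.tendsto_pow_mul_exp_neg_atTop_nhds_zero n
  have h2 : Tendsto (fun x : ℝ => x ^ 0 * Real.exp (-x)) atTop (𝓝 0) :=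
    Real.tendsto_pow_mul_exp_neg_atTop_nhds_zero 0
  have h3 : Tendsto (fun r : ℝ => r / 2) atTop atTop :=
    tendsto_id.atTop_div_const (by norm_num)
  have h4 := (((h2.comp h3).const_mul (C * A)).add ((h1.comp h3).const_mul (C * B * 2 ^ n)))
  rw [mul_zero, mul_zero, add_zero] at h4
  refine h4.congr fun r => ?_
  simp only [Function.comp_apply, pow_zero, one_mul, div_pow]
  have h5 : (2 : ℝ) ^ n ≠ 0 := by positivity
  field_simp

theorem emk (h : CHG) : EMK := by
  intro n k hk hn τ R hτ hrot hR e he K L hKL hC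
  haveI := hτ
  have hn2 : 2 ≤ n := by omega
  have hn1 : n - 1 = 2 * k - 1 := by omega
  have hch : ∀ j < k, _ := fun j hj => h n j hn2 (by omega) τ hτ hrot e he
  have hcc : ∀ j, cc n (j + 1) = cc n j * ((n : ℝ) - 1 - 2 * j) := by
    intro j
    unfold cc
    rw [Finset.prod_range_succ]
  -- the integrand
  have hint : ∀ j < k, ∀ r : ℝ, 0 < r → IntervalIntegrable (fun u => u ^ (n - 1) *
      (gj τ e j u - ((n : ℝ) - 1 - 2 * j) * gj τ e (j + 1) u)) volume 0 r := by
    intro j hj r hr
    obtain ⟨_, h2, h3, _⟩ := hch j hj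
    have h4 := (h2 r hr).sub ((h3 r hr).const_mul ((n : ℝ) - 1 - 2 * j))
    refine h4.congr ?_
    intro u _
    simp only [Pi.sub_apply]
    ring
  refine ⟨hk, fun r hr => (hKL r hr).1, fun r hr => (hKL r hr).2.1, fun r hr => (hKL r hr).2.2,
    ?_, ?_, ?_, ?_⟩
  · intro j hj r hr
    obtain ⟨_, _, _, _, _, h6⟩ := hch j hj
    have h7 := ((h6 r hr).const_mul (cc n j)).sub_const 1
    rw [← hn1]
    unfold VV PE
    refine h7.congr_deriv ?_
    ring
  · intro j hj
    obtain ⟨_, _, _, _, h5, _⟩ := hch j hj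
    exact continuousOn_const.mul h5
  · intro j hj r hr
    obtain ⟨_, _, _, _, _, h6⟩ := hch j (by omega)
    obtain ⟨_, _, _, _, _, h6'⟩ := hch (j + 1) hj
    have hc : ContinuousAt (fun u => u ^ (n - 1) *
        (gj τ e j u - ((n : ℝ) - 1 - 2 * j) * gj τ e (j + 1) u)) r := by
      refine ContinuousAt.mul (by fun_prop) ?_
      exact (h6 r hr).continuousAt.sub (continuousAt_const.mul (h6' r hr).continuousAt)
    have hm : StronglyMeasurableAtFilter (fun u => u ^ (n - 1) *
        (gj τ e j u - ((n : ℝ) - 1 - 2 * j) * gj τ e (j + 1) u)) (𝓝 r) volume := by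
      refine ContinuousOn.stronglyMeasurableAtFilter isOpen_Ioi (s := Ioi 0) ?_ r hr
      intro x hx
      refine ContinuousAt.continuousWithinAt ?_
      refine ContinuousAt.mul (by fun_prop) ?_
      exact (h6 x hx).continuousAt.sub (continuousAt_const.mul (h6' x hx).continuousAt)
    have hd := intervalIntegral.integral_hasDerivAt_right (hint j (by omega) r hr) hm hc
    have hd' := hd.const_mul (cc n j)
    unfold PE pe
    refine hd'.congr_deriv ?_
    unfold VV
    rw [hcc, ← hn1]
    ring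
  · intro j hj
    obtain ⟨C, hC⟩ := hC
    obtain ⟨r0, hr0⟩ : ∃ r0 : ℝ, r0 = max R 0 + 1 := ⟨_, rfl⟩
    have hr01 : 1 ≤ r0 := by rw [hr0]; linarith [le_max_right R 0]
    have hr0R : R + 1 ≤ r0 := by rw [hr0]; linarith [le_max_left R 0]
    obtain ⟨D, hD⟩ : ∃ D : ℝ, D = om j 1 * τ.real univ +
      |(n : ℝ) - 1 - 2 * j| * (om (j + 1) 1 * τ.real univ) := ⟨_, rfl⟩
    have hD0 : 0 ≤ D := by
      rw [hD]
      have := (om_pos j one_pos).le
      have := (om_pos (j + 1) one_pos).le
      positivity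
    have hbr : ∀ u : ℝ, r0 ≤ u →
        |gj τ e j u - ((n : ℝ) - 1 - 2 * j) * gj τ e (j + 1) u| ≤ D := by
      intro u hu
      have h1 := gj_far τ hR he j (r := u) (by linarith) (by linarith)
      have h2 := gj_far τ hR he (j + 1) (r := u) (by linarith) (by linarith)
      rw [hD]
      refine (abs_sub _ _).trans ?_
      rw [abs_mul]
      gcongr
    have hpe : ∀ r : ℝ, r0 ≤ r → |pe τ e j r| ≤ |pe τ e j r0| + D * r ^ n := by
      intro r hr
      have hi0 := hint j hj r0 (by linarith)
      have hi1 := hint j hj r (by linarith)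
      have hadd := intervalIntegral.integral_add_adjacent_intervals hi0 (hi0.symm.trans hi1)
      have hb : ‖∫ u in r0..r, u ^ (n - 1) *
          (gj τ e j u - ((n : ℝ) - 1 - 2 * j) * gj τ e (j + 1) u)‖ ≤
          (r ^ (n - 1) * D) * |r - r0| := by
        refine intervalIntegral.norm_integral_le_of_norm_le_const ?_
        intro u hu
        rw [uIoc_of_le hr] at hu
        have hu0 : 0 ≤ u := by linarith [hu.1]
        rw [Real.norm_eq_abs, abs_mul, abs_of_nonneg (pow_nonneg hu0 _)]
        have := hbr u hu.1.le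
        have := pow_le_pow_left₀ hu0 hu.2 (n - 1)
        have h5 : 0 ≤ r ^ (n - 1) := pow_nonneg (by linarith) _
        gcongr
      unfold pe
      rw [← hadd]
      refine (abs_add_le _ _).trans ?_
      have h6 : (r ^ (n - 1) * D) * |r - r0| ≤ D * r ^ n := by
        have h7 : |r - r0| ≤ r := by
          rw [abs_of_nonneg (by linarith)]
          linarith
        have h8 : r ^ n = r ^ (n - 1) * r := by
          rw [← pow_succ]
          congr 1
          omega
        rw [h8]
        have h9 : 0 ≤ r ^ (n - 1) := pow_nonneg (by linarith) _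
        calc (r ^ (n - 1) * D) * |r - r0| ≤ (r ^ (n - 1) * D) * r := by gcongr
          _ = D * (r ^ (n - 1) * r) := by ring
      have h10 := hb.trans h6
      rw [Real.norm_eq_abs] at h10
      linarith
    obtain ⟨E, hE⟩ : ∃ E : ℝ, E = |cc n j| * (om j 1 * τ.real univ) + 1 := ⟨_, rfl⟩
    have hV : ∀ r : ℝ, r0 ≤ r → |VV τ e j r| ≤ E := by
      intro r hr
      have h1 := gj_far τ hR he j (r := r) (by linarith) (by linarith)
      unfold VV
      refine (abs_sub _ _).trans ?_
      rw [abs_mul, abs_one, hE]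
      gcongr
    have hlim := decay n C (|cc n j| * |pe τ e j r0| + E) (|cc n j| * D)
    refine squeeze_zero_norm' ?_ hlim
    filter_upwards [eventually_ge_atTop r0] with r hr
    obtain ⟨hK, hL⟩ := hC r (by linarith)
    have h1 := hpe r hr
    have h2 := hV r hr
    have hCe : 0 ≤ C * Real.exp (-(r / 2)) := (abs_nonneg _).trans hK
    rw [Real.norm_eq_abs]
    refine (abs_sub _ _).trans ?_
    rw [abs_mul, abs_mul]
    unfold PE
    rw [abs_mul]
    calc |K r| * (|cc n j| * |pe τ e j r|) + |L r| * |VV τ e j r|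
        ≤ (C * Real.exp (-(r / 2))) * (|cc n j| * (|pe τ e j r0| + D * r ^ n)) +
          (C * Real.exp (-(r / 2))) * E := by gcongr
      _ = C * Real.exp (-(r / 2)) * (|cc n j| * |pe τ e j r0| + E + |cc n j| * D * r ^ n) := by
          ring

end Pool.Agent.Helper90.OB
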